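import Pool.Agent.H978R2.Conv
import Pool.Agent.H978R2.WalkCyc

/-!
# Density of the longest open cycle in supercritical bond percolation on the square lattice

For every `p > 1/2` the length of the longest open cycle in the box `{1, ..., n}^2`, divided by
`n ^ 2`, converges in probability to a constant.
-/

set_option autoImplicit false

open MeasureTheory Filter Topology

namespace Pool.Agent.Results.MP_db3ceb_pr.LongestCycleDensity

/-- The square lattice: two points of `ℤ × ℤ` are adjacent iff their Euclidean distance is `1`. -/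
def squareLattice : SimpleGraph (ℤ × ℤ) where
  Adj x y := (x.1 - y.1) ^ 2 + (x.2 - y.2) ^ 2 = 1
  symm := ⟨fun x y h => by rw [← h]; ring⟩
  loopless := ⟨fun x h => by simp at h⟩

/-- Bond percolation with parameter `p`: every edge of the square lattice is kept (`true`) with
probability `p` and deleted (`false`) with probability `1 - p`, independently. -/
noncomputable def percolation (p : NNReal) (hp : p ≤ 1) :
    Measure (squareLattice.edgeSet → Bool) :=
  Measure.infinitePi fun _ => (PMF.bernoulli p hp).toMeasure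

/-- The graph `ω_n` of the kept edges with both ends in the box `B_n = {1, ..., n}^2`. -/
def keptGraph (n : ℕ) (ω : squareLattice.edgeSet → Bool) : SimpleGraph (ℤ × ℤ) where
  Adj x y := (1 ≤ x.1 ∧ x.1 ≤ n ∧ 1 ≤ x.2 ∧ x.2 ≤ n) ∧ (1 ≤ y.1 ∧ y.1 ≤ n ∧ 1 ≤ y.2 ∧ y.2 ≤ n) ∧
    ∃ h : s(x, y) ∈ squareLattice.edgeSet, ω ⟨s(x, y), h⟩ = true
  symm := ⟨fun x y h => by
    obtain ⟨h1, h2, h3, h4⟩ := h
    refine ⟨h2, h1, ?_⟩
    rw [Sym2.eq_swap] at h3
    refine ⟨h3, ?_⟩
    rw [← h4]
    congr 1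
    exact Subtype.ext Sym2.eq_swap⟩
  loopless := ⟨fun x h => by
    obtain ⟨_, _, h3, _⟩ := h
    exact squareLattice.loopless.irrefl x h3⟩

/-- `C_n`: the largest length of a cycle of `ω_n` (`0` if there is none). -/
noncomputable def longestCycle (n : ℕ) (ω : squareLattice.edgeSet → Bool) : ℕ :=
  sSup {k | ∃ (v : ℤ × ℤ) (c : (keptGraph n ω).Walk v v), c.IsCycle ∧ c.length = k}

lemma longestCycle_eq (n : ℕ) (ω : Sym2 (ℤ × ℤ) → Bool) :
    longestCycle n (fun e => ω e.1) = H978R2.Clen (H978R2.Rc 1 n 1 n) ω := by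
  have hG : keptGraph n (fun e => ω e.1) =
      H978R2.openG (H978R2.latR (H978R2.Rc 1 n 1 n)) ω := by
    ext x y
    constructor
    · rintro ⟨⟨a1, a2, a3, a4⟩, ⟨b1, b2, b3, b4⟩, h, h'⟩
      exact ⟨⟨h, ⟨⟨a1, a2⟩, a3, a4⟩, ⟨b1, b2⟩, b3, b4⟩, h'⟩
    · rintro ⟨⟨h, ⟨⟨a1, a2⟩, a3, a4⟩, ⟨b1, b2⟩, b3, b4⟩, h'⟩
      exact ⟨⟨a1, a2, a3, a4⟩, ⟨b1, b2, b3, b4⟩, h, h'⟩
  unfold longestCycle H978R2.Clen
  congr 1
  ext k
  rw [hG]
  exact H978R2.cycle_iff_list _ k

/-- For every `p > 1/2` there is a constant `κ` such that `C_n / n ^ 2` converges to `κ` in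
probability. -/
theorem result (p : NNReal) (hp : p ≤ 1) (hp2 : 1 / 2 < p) :
    ∃ κ : ℝ, TendstoInMeasure (percolation p hp)
      (fun (n : ℕ) (ω : squareLattice.edgeSet → Bool) => (longestCycle n ω : ℝ) / (n : ℝ) ^ 2)
      atTop (fun _ => κ) := by
  have hph : (1 / 2 : ℝ) < p := by
    have : ((1 / 2 : NNReal) : ℝ) < p := by exact_mod_cast hp2
    simpa using this
  obtain ⟨L, hL⟩ := H978R2.conv_prob p hp hph
  refine ⟨L, ?_⟩
  rw [tendstoInMeasure_iff_dist]
  intro ε hε
  have hinj : Function.Injective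
      (fun e : squareLattice.edgeSet => (e : Sym2 (ℤ × ℤ))) := Subtype.val_injective
  have hlaw := H978R2.map_comp_inj p hp (fun e : squareLattice.edgeSet => (e : Sym2 (ℤ × ℤ))) hinj
  have hlaw' : percolation p hp = (H978R2.bm (Sym2 (ℤ × ℤ)) p hp).map
      (fun (ω : Sym2 (ℤ × ℤ) → Bool) (e : squareLattice.edgeSet) => ω (e : Sym2 (ℤ × ℤ))) :=
    hlaw.symm
  have hm : Measurable (fun (ω : Sym2 (ℤ × ℤ) → Bool) (e : squareLattice.edgeSet) =>
      ω (e : Sym2 (ℤ × ℤ))) := by
    rw [measurable_pi_iff]; intro i; exact measurable_pi_apply _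
  -- extend configurations by `false` to see that the events are measurable
  classical
  have hext : ∀ (n : ℕ) (ω : squareLattice.edgeSet → Bool),
      longestCycle n ω = H978R2.Clen (H978R2.Rc 1 n 1 n)
        (fun e => if h : e ∈ squareLattice.edgeSet then ω ⟨e, h⟩ else false) := by
    intro n ω
    rw [← longestCycle_eq]
    congr 1
    funext e
    simp
  have hme : Measurable (fun (ω : squareLattice.edgeSet → Bool) (e : Sym2 (ℤ × ℤ)) =>
      if h : e ∈ squareLattice.edgeSet then ω ⟨e, h⟩ else false) := by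
    rw [measurable_pi_iff]
    intro e
    by_cases h : e ∈ squareLattice.edgeSet
    · simp only [h, dif_pos]; exact measurable_pi_apply _
    · simp only [h, dif_neg, not_false_iff]; exact measurable_const
  have hmC : ∀ n : ℕ, Measurable (fun ω : squareLattice.edgeSet → Bool =>
      (longestCycle n ω : ℝ)) := by
    intro n
    have : (fun ω : squareLattice.edgeSet → Bool => (longestCycle n ω : ℝ)) =
        (fun ω : Sym2 (ℤ × ℤ) → Bool => (H978R2.Clen (H978R2.Rc 1 n 1 n) ω : ℝ)) ∘
        (fun (ω : squareLattice.edgeSet → Bool) (e : Sym2 (ℤ × ℤ)) =>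
          if h : e ∈ squareLattice.edgeSet then ω ⟨e, h⟩ else false) := by
      funext ω
      simp only [Function.comp_apply]
      rw [hext]
    rw [this]
    exact (H978R2.Clen_measurable_real (H978R2.Rc_finite _ _ _ _)).comp hme
  have hset : ∀ n : ℕ, MeasurableSet {ω : squareLattice.edgeSet → Bool |
      ε ≤ dist ((longestCycle n ω : ℝ) / (n : ℝ) ^ 2) L} := by
    intro n
    exact measurableSet_le measurable_const (((hmC n).div_const _).dist measurable_const)
  have heq : ∀ n : ℕ, percolation p hp {ω : squareLattice.edgeSet → Bool |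
      ε ≤ dist ((longestCycle n ω : ℝ) / (n : ℝ) ^ 2) L} =
      ENNReal.ofReal ((H978R2.bm (Sym2 (ℤ × ℤ)) p hp).real
        {ω | ε ≤ |(H978R2.Clen (H978R2.Rc 1 n 1 n) ω : ℝ) / (n : ℝ) ^ 2 - L|}) := by
    intro n
    rw [hlaw', Measure.map_apply hm (hset n)]
    unfold Measure.real
    rw [ENNReal.ofReal_toReal (measure_ne_top _ _)]
    congr 1
    ext ω
    show ε ≤ dist ((longestCycle n (fun e => ω e.1) : ℝ) / (n : ℝ) ^ 2) L ↔ _
    rw [longestCycle_eq, Real.dist_eq]
    exact Iff.rfl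
  simp only [heq]
  have h0 : (0 : ENNReal) = ENNReal.ofReal 0 := by simp
  rw [h0]
  exact (ENNReal.continuous_ofReal.tendsto 0).comp (hL ε hε)

end Pool.Agent.Results.MP_db3ceb_pr.LongestCycleDensity
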